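import Mathlib

/-!
# Lower general position number of Cartesian products

For every `N` there are finite connected graphs `G`, `H` with `gp⁻(G) ≥ N`, `gp⁻(H) ≥ N` and
`gp⁻(G □ H) ≤ 5`.  Here `G` is a complete graph and `H` is obtained from a graph on nine
vertices by blowing up four of the vertices into cliques.
-/

namespace Pool.Agent.Results.MP_f79b2b_co.LowerGPProduct

open SimpleGraph

/-- The vertices `x, y, z` lie on a common geodesic (shortest path) of `G`. -/
def OnGeodesic {V : Type} (G : SimpleGraph V) (x y z : V) : Prop :=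
  ∃ (u v : V) (p : G.Walk u v), p.length = G.dist u v ∧
    x ∈ p.support ∧ y ∈ p.support ∧ z ∈ p.support

/-- `S` is a general position set: no three vertices of `S` lie on a common geodesic. -/
def IsGP {V : Type} (G : SimpleGraph V) (S : Set V) : Prop :=
  ∀ x ∈ S, ∀ y ∈ S, ∀ z ∈ S, x ≠ y → y ≠ z → x ≠ z → ¬ OnGeodesic G x y z

/-- `S` is a maximal general position set. -/
def IsMaxGP {V : Type} (G : SimpleGraph V) (S : Set V) : Prop :=
  IsGP G S ∧ ∀ T : Set V, IsGP G T → S ⊆ T → T = S

/-- The lower general position number: the least size of a maximal general position set. -/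
noncomputable def lgp {V : Type} (G : SimpleGraph V) : ℕ :=
  sInf {k | ∃ S : Set V, IsMaxGP G S ∧ S.ncard = k}

/-! ### Geodesics and distances -/

/-- One of the three points is between the other two, for the distance function `D`. -/
def Col {V : Type} (D : V → V → ℕ) (x y z : V) : Prop :=
  D x z = D x y + D y z ∨ D x y = D x z + D z y ∨ D y z = D y x + D x z

theorem geo_mem {V : Type} [DecidableEq V] {G : SimpleGraph V} {u v x : V} (p : G.Walk u v)
    (hp : p.length = G.dist u v) (hx : x ∈ p.support) :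
    (p.takeUntil x hx).length = G.dist u x ∧ (p.dropUntil x hx).length = G.dist x v ∧
      G.dist u x + G.dist x v = G.dist u v := by
  have h1 : (p.takeUntil x hx).length + (p.dropUntil x hx).length = p.length := by
    have := congrArg Walk.length (p.take_spec hx)
    rwa [Walk.length_append] at this
  have h2 : G.dist u x ≤ (p.takeUntil x hx).length := dist_le _
  have h3 : G.dist x v ≤ (p.dropUntil x hx).length := dist_le _
  have h4 : G.dist u v ≤ G.dist u x + G.dist x v :=
    (p.takeUntil x hx).reachable.dist_triangle_left v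
  omega

theorem geo_pair {V : Type} [DecidableEq V] {G : SimpleGraph V} {u v x z : V} (p : G.Walk u v)
    (hp : p.length = G.dist u v) (hx : x ∈ p.support) (hz : z ∈ p.support) :
    G.dist u x + G.dist x z = G.dist u z ∨ G.dist u z + G.dist z x = G.dist u x := by
  obtain ⟨h1, h2, h3⟩ := geo_mem p hp hx
  obtain ⟨k1, k2, k3⟩ := geo_mem p hp hz
  have hz' : z ∈ ((p.takeUntil x hx).append (p.dropUntil x hx)).support := by
    rw [p.take_spec hx]; exact hz
  rw [Walk.mem_support_append_iff] at hz'
  rcases hz' with h | h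
  · obtain ⟨a1, a2, a3⟩ := geo_mem _ h1 h
    exact Or.inr a3
  · obtain ⟨a1, a2, a3⟩ := geo_mem _ h2 h
    left
    omega

theorem col_of_onGeodesic {V : Type} {G : SimpleGraph V} {x y z : V}
    (h : OnGeodesic G x y z) : Col G.dist x y z := by
  classical
  obtain ⟨u, v, p, hp, hx, hy, hz⟩ := h
  have h1 := geo_pair p hp hx hy
  have h2 := geo_pair p hp hy hz
  have h3 := geo_pair p hp hx hz
  have c1 : G.dist y x = G.dist x y := dist_comm
  have c2 : G.dist z y = G.dist y z := dist_comm
  have c3 : G.dist z x = G.dist x z := dist_comm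
  unfold Col
  omega

theorem onGeodesic_of_btw {V : Type} {G : SimpleGraph V} (hG : G.Connected) {x y z : V}
    (h : G.dist x z = G.dist x y + G.dist y z) : OnGeodesic G x y z := by
  obtain ⟨p, hp⟩ := hG.exists_walk_length_eq_dist x y
  obtain ⟨q, hq⟩ := hG.exists_walk_length_eq_dist y z
  refine ⟨x, z, p.append q, by rw [Walk.length_append]; omega, ?_, ?_, ?_⟩
  · exact Walk.start_mem_support _
  · rw [Walk.mem_support_append_iff]
    exact Or.inl (Walk.end_mem_support _)
  · exact Walk.end_mem_support _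

theorem OnGeodesic.swap12 {V : Type} {G : SimpleGraph V} {x y z : V}
    (h : OnGeodesic G x y z) : OnGeodesic G y x z := by
  obtain ⟨u, v, p, hp, hx, hy, hz⟩ := h
  exact ⟨u, v, p, hp, hy, hx, hz⟩

theorem OnGeodesic.swap23 {V : Type} {G : SimpleGraph V} {x y z : V}
    (h : OnGeodesic G x y z) : OnGeodesic G x z y := by
  obtain ⟨u, v, p, hp, hx, hy, hz⟩ := h
  exact ⟨u, v, p, hp, hx, hz, hy⟩

theorem onGeodesic_iff {V : Type} {G : SimpleGraph V} (hG : G.Connected) {x y z : V} :
    OnGeodesic G x y z ↔ Col G.dist x y z := by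
  constructor
  · exact col_of_onGeodesic
  · rintro (h | h | h)
    · exact onGeodesic_of_btw hG h
    · exact (onGeodesic_of_btw hG h).swap23
    · exact (onGeodesic_of_btw hG h).swap12

/-- General position with respect to a distance function. -/
def GPD {V : Type} (D : V → V → ℕ) (S : Set V) : Prop :=
  ∀ x ∈ S, ∀ y ∈ S, ∀ z ∈ S, x ≠ y → y ≠ z → x ≠ z → ¬ Col D x y z

theorem isGP_iff {V : Type} {G : SimpleGraph V} (hG : G.Connected) {D : V → V → ℕ}
    (hD : ∀ u v, G.dist u v = D u v) (S : Set V) : IsGP G S ↔ GPD D S := by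
  have : G.dist = D := by
    funext u v; exact hD u v
  subst this
  unfold IsGP GPD
  constructor
  · intro h x hx y hy z hz a b c d
    exact h x hx y hy z hz a b c ((onGeodesic_iff hG).2 d)
  · intro h x hx y hy z hz a b c d
    exact h x hx y hy z hz a b c ((onGeodesic_iff hG).1 d)

/-- A local criterion for a function to be the distance function of a graph. -/
theorem dist_eq_of {V : Type} [Nonempty V] (G : SimpleGraph V) (D : V → V → ℕ)
    (h0 : ∀ v, D v v = 0)
    (hs : ∀ u v, u ≠ v → ∃ w, G.Adj u w ∧ D w v + 1 = D u v)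
    (hl : ∀ u w v, G.Adj u w → D u v ≤ D w v + 1) :
    G.Connected ∧ ∀ u v, G.dist u v = D u v := by
  have up : ∀ n u v, D u v = n → ∃ p : G.Walk u v, p.length = n := by
    intro n
    induction n with
    | zero =>
      intro u v h
      by_cases huv : u = v
      · subst huv
        exact ⟨Walk.nil, rfl⟩
      · obtain ⟨w, -, hw⟩ := hs u v huv
        omega
    | succ n ih =>
      intro u v h
      have huv : u ≠ v := by
        rintro rfl
        rw [h0] at h
        omega
      obtain ⟨w, hw, hd⟩ := hs u v huv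
      obtain ⟨p, hp⟩ := ih w v (by omega)
      exact ⟨Walk.cons hw p, by rw [Walk.length_cons, hp]⟩
  have low : ∀ u v (p : G.Walk u v), D u v ≤ p.length := by
    intro u v p
    induction p with
    | nil => rw [h0]; exact Nat.zero_le _
    | cons h p ih =>
      rw [Walk.length_cons]
      have := hl _ _ ‹_› h
      omega
  have hc : G.Connected := by
    rw [connected_iff]
    refine ⟨?_, inferInstance⟩
    intro u v
    obtain ⟨p, -⟩ := up _ u v rfl
    exact p.reachable
  refine ⟨hc, ?_⟩
  intro u v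
  obtain ⟨p, hp⟩ := up _ u v rfl
  obtain ⟨q, hq⟩ := hc.exists_walk_length_eq_dist u v
  have h1 : G.dist u v ≤ p.length := dist_le p
  have h2 := low u v q
  omega

theorem exists_isMaxGP {V : Type} [Finite V] (G : SimpleGraph V) : ∃ S, IsMaxGP G S := by
  have hfin : {S : Set V | IsGP G S}.Finite := Set.toFinite _
  have hne : {S : Set V | IsGP G S}.Nonempty := ⟨∅, by
    intro x hx
    exact absurd hx (Set.notMem_empty x)⟩
  obtain ⟨S, hS⟩ := hfin.exists_maximal hne
  refine ⟨S, hS.1, ?_⟩
  intro T hT hST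
  exact (hS.2 hT hST).antisymm hST

theorem le_lgp {V : Type} [Finite V] (G : SimpleGraph V) (N : ℕ)
    (h : ∀ S, IsMaxGP G S → N ≤ S.ncard) : N ≤ lgp G := by
  obtain ⟨S, hS⟩ := exists_isMaxGP G
  have hne : {k | ∃ S : Set V, IsMaxGP G S ∧ S.ncard = k}.Nonempty := ⟨S.ncard, S, hS, rfl⟩
  apply le_csInf hne
  rintro k ⟨T, hT, rfl⟩
  exact h T hT

/-! ### The graph on nine vertices -/

/-- The distances in a graph on nine vertices. -/
def D9 : Fin 9 → Fin 9 → ℕ :=
  ![![0, 2, 2, 1, 1, 1, 2, 1, 2],
    ![2, 0, 2, 1, 1, 1, 1, 2, 2],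
    ![2, 2, 0, 2, 2, 1, 3, 3, 1],
    ![1, 1, 2, 0, 1, 2, 2, 2, 1],
    ![1, 1, 2, 1, 0, 1, 2, 2, 2],
    ![1, 1, 1, 2, 1, 0, 2, 2, 1],
    ![2, 1, 3, 2, 2, 2, 0, 1, 3],
    ![1, 2, 3, 2, 2, 2, 1, 0, 3],
    ![2, 2, 1, 1, 2, 1, 3, 3, 0]]

theorem D9_symm : ∀ a b, D9 a b = D9 b a := by decide

theorem D9_zero : ∀ a b, D9 a b = 0 ↔ a = b := by decide

theorem D9_tri : ∀ a b c, D9 a c ≤ D9 a b + D9 b c := by decide

theorem D9_step : ∀ a b, 2 ≤ D9 a b → ∃ c, D9 a c = 1 ∧ D9 c b + 1 = D9 a b := by decide

/-- The vertex set of the blow-up: the first five vertices are kept, the last four are replaced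
by `N + 1` vertices each. -/
abbrev VH (N : ℕ) : Type := Fin 5 ⊕ (Fin 4 × Fin (N + 1))

/-- The vertex of the small graph below a vertex of the blow-up. -/
def cls {N : ℕ} : VH N → Fin 9
  | Sum.inl i => ⟨i.val, by omega⟩
  | Sum.inr p => ⟨5 + p.1.val, by omega⟩

/-- The blow-up: two distinct vertices are adjacent if they have the same image or adjacent
images in the graph on nine vertices. -/
def HN (N : ℕ) : SimpleGraph (VH N) where
  Adj u v := u ≠ v ∧ (cls u = cls v ∨ D9 (cls u) (cls v) = 1)
  symm := ⟨by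
    rintro u v ⟨h1, h2⟩
    refine ⟨h1.symm, ?_⟩
    rcases h2 with h | h
    · exact Or.inl h.symm
    · right; rw [D9_symm]; exact h⟩
  loopless := ⟨fun u h => h.1 rfl⟩

/-- The distance function of the blow-up. -/
def DH {N : ℕ} (u v : VH N) : ℕ := if u = v then 0 else if cls u = cls v then 1 else
  D9 (cls u) (cls v)

theorem cls_surj (N : ℕ) (c : Fin 9) : ∃ u : VH N, cls u = c := by
  by_cases h : c.val < 5
  · exact ⟨Sum.inl ⟨c.val, h⟩, rfl⟩
  · refine ⟨Sum.inr (⟨c.val - 5, by omega⟩, 0), ?_⟩
    apply Fin.ext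
    show 5 + (c.val - 5) = c.val
    omega

theorem HN_dist (N : ℕ) : (HN N).Connected ∧ ∀ u v, (HN N).dist u v = DH u v := by
  have : Nonempty (VH N) := ⟨Sum.inl 0⟩
  apply dist_eq_of
  · intro v; simp [DH]
  · intro u v huv
    by_cases h1 : cls u = cls v
    · refine ⟨v, ⟨huv, Or.inl h1⟩, ?_⟩
      simp [DH, huv, h1]
    · by_cases h2 : D9 (cls u) (cls v) = 1
      · refine ⟨v, ⟨huv, Or.inr h2⟩, ?_⟩
        simp [DH, huv, h1, h2]
      · have h3 : D9 (cls u) (cls v) ≠ 0 := fun h => h1 ((D9_zero _ _).1 h)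
        obtain ⟨c, hc1, hc2⟩ := D9_step (cls u) (cls v) (by omega)
        obtain ⟨w, rfl⟩ := cls_surj N c
        have huw : u ≠ w := by
          rintro rfl
          have := (D9_zero (cls u) (cls u)).2 rfl
          omega
        have hcwv : cls w ≠ cls v := by
          intro h
          have := (D9_zero _ _).2 h
          omega
        have hwv : w ≠ v := fun h => hcwv (congrArg cls h)
        refine ⟨w, ⟨huw, Or.inr hc1⟩, ?_⟩
        simp only [DH, huv, hwv, h1, hcwv, if_false]
        exact hc2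
  · rintro u w v ⟨huw, h⟩
    by_cases huv : u = v
    · simp [DH, huv]
    by_cases hwv : w = v
    · subst hwv
      rcases h with h | h
      · simp [DH, huw, h]
      · have h1 : cls u ≠ cls w := by
          intro h'
          have := (D9_zero _ _).2 h'
          omega
        simp [DH, huw, h1, h]
    · by_cases c1 : cls u = cls v
      · simp only [DH, huv, c1, if_false, if_true]
        omega
      · by_cases c2 : cls w = cls v
        · rcases h with h | h
          · exact absurd (h.trans c2) c1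
          · simp only [DH, huv, hwv, c1, c2, if_false, if_true]
            rw [← c2, h]
            omega
        · simp only [DH, huv, hwv, c1, c2, if_false]
          rcases h with h | h
          · rw [h]; omega
          · have := D9_tri (cls u) (cls w) (cls v)
            omega

/-! ### Maximal general position sets of the blow-up are large -/

theorem cls_inl {N : ℕ} (i : Fin 5) : cls (Sum.inl i : VH N) = ⟨i.val, by omega⟩ := rfl

theorem cls_inr {N : ℕ} (p : Fin 4 × Fin (N + 1)) :
    cls (Sum.inr p : VH N) = ⟨5 + p.1.val, by omega⟩ := rfl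

theorem DH_inl_inl {N : ℕ} (i j : Fin 5) :
    DH (Sum.inl i : VH N) (Sum.inl j) = D9 ⟨i.val, by omega⟩ ⟨j.val, by omega⟩ := by
  unfold DH
  rw [cls_inl, cls_inl]
  by_cases h : i = j
  · subst h
    rw [if_pos rfl]
    exact ((D9_zero _ _).2 rfl).symm
  · rw [if_neg (fun h' => h (Sum.inl.inj h')), if_neg]
    intro h'
    apply h
    apply Fin.ext
    have := congrArg Fin.val h'
    exact this

theorem DH_inl_inr {N : ℕ} (i : Fin 5) (p : Fin 4 × Fin (N + 1)) :
    DH (Sum.inl i : VH N) (Sum.inr p) = D9 ⟨i.val, by omega⟩ ⟨5 + p.1.val, by omega⟩ := by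
  unfold DH
  rw [cls_inl, cls_inr, if_neg (by simp), if_neg]
  intro h'
  have := congrArg Fin.val h'
  simp only at this
  omega

theorem DH_symm {N : ℕ} (u v : VH N) : DH u v = DH v u := by
  unfold DH
  rw [D9_symm (cls u) (cls v)]
  by_cases h : u = v
  · subst h; rfl
  · rw [if_neg h, if_neg (Ne.symm h)]
    by_cases h' : cls u = cls v
    · rw [if_pos h', if_pos h'.symm]
    · rw [if_neg h', if_neg (Ne.symm h')]

/-- The first five vertices of the small graph. -/
def lo (i : Fin 5) : Fin 9 := ⟨i.val, by omega⟩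

/-- The last four vertices of the small graph. -/
def hi (c : Fin 4) : Fin 9 := ⟨5 + c.val, by omega⟩

/-- The set of `i` with `b i` is in general position. -/
def gpb (b : Fin 5 → Bool) : Bool := decide (∀ i j k : Fin 5,
  b i = true ∧ b j = true ∧ b k = true ∧ i ≠ j ∧ j ≠ k ∧ i ≠ k →
    D9 (lo i) (lo k) ≠ D9 (lo i) (lo j) + D9 (lo j) (lo k))

/-- Adding the vertex `hi c` keeps general position. -/
def extb (b : Fin 5 → Bool) (c : Fin 4) : Bool := decide (∀ i j : Fin 5,
  b i = true ∧ b j = true ∧ i ≠ j →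
    D9 (lo i) (lo j) ≠ D9 (lo i) (hi c) + D9 (hi c) (lo j) ∧
      D9 (lo i) (hi c) ≠ D9 (lo i) (lo j) + D9 (lo j) (hi c))

/-- The finite check: each general position set among the first five vertices can be extended by
one of the last four. -/
theorem extend_small : ∀ b : Fin 5 → Bool, gpb b = true → ∃ c : Fin 4, extb b c = true := by
  decide +kernel

theorem DH_lo_lo {N : ℕ} (i j : Fin 5) :
    DH (Sum.inl i : VH N) (Sum.inl j) = D9 (lo i) (lo j) := DH_inl_inl i j

theorem DH_lo_hi {N : ℕ} (i : Fin 5) (p : Fin 4 × Fin (N + 1)) :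
    DH (Sum.inl i : VH N) (Sum.inr p) = D9 (lo i) (hi p.1) := DH_inl_inr i p

theorem DH_hi_lo {N : ℕ} (i : Fin 5) (p : Fin 4 × Fin (N + 1)) :
    DH (Sum.inr p : VH N) (Sum.inl i) = D9 (hi p.1) (lo i) := by
  rw [DH_symm, DH_lo_hi, D9_symm]

/-- Adding an element to a general position set. -/
theorem gpd_insert {V : Type} (D : V → V → ℕ) (hD : ∀ u v, D u v = D v u) (S : Set V) (x : V)
    (hS : GPD D S) (h : ∀ y ∈ S, ∀ z ∈ S, x ≠ y → y ≠ z → x ≠ z → ¬ Col D x y z) :
    GPD D (insert x S) := by
  intro a ha b hb c hc hab hbc hac hcol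
  have e1 := hD a b
  have e2 := hD b c
  have e3 := hD a c
  rcases ha with rfl | ha
  · rcases hb with rfl | hb
    · exact hab rfl
    · rcases hc with rfl | hc
      · exact hac rfl
      · exact h b hb c hc hab hbc hac hcol
  · rcases hb with rfl | hb
    · rcases hc with rfl | hc
      · exact hbc rfl
      · apply h a ha c hc (Ne.symm hab) hac hbc
        unfold Col at hcol ⊢
        omega
    · rcases hc with rfl | hc
      · apply h a ha b hb (Ne.symm hac) hab (Ne.symm hbc)
        unfold Col at hcol ⊢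
        omega
      · exact hS a ha b hb c hc hab hbc hac hcol

/-- A maximal general position set of the blow-up contains a vertex outside the first five. -/
theorem exists_inr {N : ℕ} (S : Set (VH N)) (hS : IsMaxGP (HN N) S) :
    ∃ p, (Sum.inr p : VH N) ∈ S := by
  classical
  by_contra hcon
  have hno : ∀ p, (Sum.inr p : VH N) ∉ S := fun p hp => hcon ⟨p, hp⟩
  obtain ⟨hconn, hdist⟩ := HN_dist N
  have hgp : GPD DH S := (isGP_iff hconn hdist S).1 hS.1
  have hb : ∀ i, (fun i => decide ((Sum.inl i : VH N) ∈ S) : Fin 5 → Bool) i = true ↔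
      (Sum.inl i : VH N) ∈ S := by
    intro i; simp
  generalize (fun i => decide ((Sum.inl i : VH N) ∈ S) : Fin 5 → Bool) = b at hb
  have h1 : gpb b = true := by
    unfold gpb
    rw [decide_eq_true_eq]
    rintro i j k ⟨hi, hj, hk, hij, hjk, hik⟩ heq
    apply hgp _ ((hb i).1 hi) _ ((hb j).1 hj) _ ((hb k).1 hk)
      (fun h => hij (Sum.inl.inj h)) (fun h => hjk (Sum.inl.inj h))
      (fun h => hik (Sum.inl.inj h))
    left
    rw [DH_lo_lo, DH_lo_lo, DH_lo_lo]
    exact heq
  obtain ⟨c, hc⟩ := extend_small b h1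
  unfold extb at hc
  rw [decide_eq_true_eq] at hc
  have hT : GPD DH (insert (Sum.inr (c, 0) : VH N) S) := by
    apply gpd_insert DH DH_symm S _ hgp
    intro y hy z hz _ hyz _ hcol
    rcases y with i | p
    · rcases z with j | q
      · have hij : i ≠ j := fun h => hyz (by rw [h])
        have a1 := hc i j ⟨(hb i).2 hy, (hb j).2 hz, hij⟩
        have a2 := hc j i ⟨(hb j).2 hz, (hb i).2 hy, hij.symm⟩
        unfold Col at hcol
        rw [DH_hi_lo, DH_hi_lo, DH_lo_lo, DH_lo_lo, DH_lo_hi] at hcol
        have s1 := D9_symm (hi c) (lo i)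
        have s2 := D9_symm (hi c) (lo j)
        have s3 := D9_symm (lo i) (lo j)
        simp only at hcol
        omega
      · exact hno q hz
    · exact hno p hy
  have := hS.2 _ ((isGP_iff hconn hdist _).2 hT) (Set.subset_insert _ _)
  exact hno (c, 0) (by rw [← this]; exact Set.mem_insert _ _)

/-- A maximal general position set of the blow-up contains all twins of each of its vertices. -/
theorem twin_mem {N : ℕ} (S : Set (VH N)) (hS : IsMaxGP (HN N) S) (c : Fin 4)
    (i j : Fin (N + 1)) (hi : (Sum.inr (c, i) : VH N) ∈ S) : (Sum.inr (c, j) : VH N) ∈ S := by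
  by_cases hij : i = j
  · rw [← hij]; exact hi
  obtain ⟨hconn, hdist⟩ := HN_dist N
  have hgp : GPD DH S := (isGP_iff hconn hdist S).1 hS.1
  have hne : (Sum.inr (c, i) : VH N) ≠ Sum.inr (c, j) := by
    intro h
    exact hij (congrArg Prod.snd (Sum.inr.inj h))
  have hcls : cls (Sum.inr (c, i) : VH N) = cls (Sum.inr (c, j) : VH N) := rfl
  have h1 : DH (Sum.inr (c, j) : VH N) (Sum.inr (c, i)) = 1 := by
    unfold DH
    rw [if_neg (Ne.symm hne), if_pos hcls.symm]
  have htw : ∀ x : VH N, x ≠ Sum.inr (c, i) → x ≠ Sum.inr (c, j) →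
      DH (Sum.inr (c, j) : VH N) x = DH (Sum.inr (c, i)) x := by
    intro x hx1 hx2
    unfold DH
    rw [if_neg (Ne.symm hx1), if_neg (Ne.symm hx2), hcls]
  have hpos : ∀ x y : VH N, x ≠ y → 0 < DH x y := by
    intro x y hxy
    unfold DH
    rw [if_neg hxy]
    by_cases h : cls x = cls y
    · rw [if_pos h]; exact Nat.one_pos
    · rw [if_neg h]
      exact Nat.pos_of_ne_zero (fun h' => h ((D9_zero _ _).1 h'))
  have hT : GPD DH (insert (Sum.inr (c, j) : VH N) S) := by
    apply gpd_insert DH DH_symm S _ hgp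
    intro y hy z hz hy' hyz hz' hcol
    by_cases e1 : y = Sum.inr (c, i)
    · subst e1
      have t := htw z (Ne.symm hyz) (Ne.symm hz')
      have p1 := hpos _ _ hyz
      have s1 := DH_symm z (Sum.inr (c, i) : VH N)
      have s2 := DH_symm (Sum.inr (c, i) : VH N) (Sum.inr (c, j))
      unfold Col at hcol
      omega
    · by_cases e2 : z = Sum.inr (c, i)
      · subst e2
        have t := htw y hyz (Ne.symm hy')
        have p1 := hpos _ _ hyz
        have s1 := DH_symm y (Sum.inr (c, i) : VH N)
        have s2 := DH_symm (Sum.inr (c, i) : VH N) (Sum.inr (c, j))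
        have s3 := DH_symm y (Sum.inr (c, j) : VH N)
        unfold Col at hcol
        omega
      · have t1 := htw y e1 (Ne.symm hy')
        have t2 := htw z e2 (Ne.symm hz')
        have s1 := DH_symm y (Sum.inr (c, i) : VH N)
        have s2 := DH_symm y (Sum.inr (c, j) : VH N)
        have s3 := DH_symm z (Sum.inr (c, i) : VH N)
        have s4 := DH_symm z (Sum.inr (c, j) : VH N)
        apply hgp _ hi y hy z hz (Ne.symm e1) hyz (Ne.symm e2)
        unfold Col at hcol ⊢
        omega
  have := hS.2 _ ((isGP_iff hconn hdist _).2 hT) (Set.subset_insert _ _)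
  rw [← this]
  exact Set.mem_insert _ _

theorem le_lgp_HN (N : ℕ) : N ≤ lgp (HN N) := by
  apply le_lgp
  intro S hS
  obtain ⟨⟨c, i⟩, hp⟩ := exists_inr S hS
  have hsub : Set.range (fun j : Fin (N + 1) => (Sum.inr (c, j) : VH N)) ⊆ S := by
    rintro x ⟨j, rfl⟩
    exact twin_mem S hS c i j hp
  have hcard : (Set.range (fun j : Fin (N + 1) => (Sum.inr (c, j) : VH N))).ncard = N + 1 := by
    rw [Set.ncard_range_of_injective, Nat.card_fin]
    intro a b h
    exact congrArg Prod.snd (Sum.inr.inj h)
  have := Set.ncard_le_ncard hsub (Set.toFinite S)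
  omega

/-! ### Complete graphs -/

theorem le_lgp_top (N : ℕ) : N ≤ lgp (⊤ : SimpleGraph (Fin N)) := by
  apply le_lgp
  intro S hS
  have huniv : IsGP (⊤ : SimpleGraph (Fin N)) Set.univ := by
    intro x _ y _ z _ hxy hyz hxz h
    have := col_of_onGeodesic h
    unfold Col at this
    rw [dist_top_of_ne hxy, dist_top_of_ne hyz, dist_top_of_ne hxz, dist_top_of_ne hyz.symm,
      dist_top_of_ne hxy.symm] at this
    omega
  have := hS.2 _ huniv (Set.subset_univ _)
  rw [← this, Set.ncard_univ, Nat.card_fin]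

/-! ### The product -/

/-- The distance in the product of a complete graph and the blow-up. -/
def DP {M N : ℕ} (x y : Fin M × VH N) : ℕ := (if x.1 = y.1 then 0 else 1) + DH x.2 y.2

theorem prod_dist (M N : ℕ) [NeZero M] :
    ((⊤ : SimpleGraph (Fin M)) □ HN N).Connected ∧
      ∀ u v, ((⊤ : SimpleGraph (Fin M)) □ HN N).dist u v = DP u v := by
  have hK : (⊤ : SimpleGraph (Fin M)).Connected := by
    have : Nonempty (Fin M) := ⟨0⟩
    exact connected_top
  obtain ⟨hH, hd⟩ := HN_dist N
  refine ⟨hK.boxProd hH, ?_⟩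
  intro u v
  have h1 : ((⊤ : SimpleGraph (Fin M)) □ HN N).edist u v = _ := edist_boxProd u v
  have h2 := (hK.boxProd hH u v).coe_dist_eq_edist
  rw [h1, ← (hK u.1 v.1).coe_dist_eq_edist, ← (hH u.2 v.2).coe_dist_eq_edist] at h2
  have h3 : ((⊤ : SimpleGraph (Fin M)) □ HN N).dist u v =
      (⊤ : SimpleGraph (Fin M)).dist u.1 v.1 + (HN N).dist u.2 v.2 := by
    exact_mod_cast h2
  rw [h3, hd, dist_top]
  rfl

/-- The fibre of the `i`-th vertex of the small set. -/
def fib (i : Fin 5) : Bool := decide (i.val < 3)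

/-- The small set in the product. -/
def pt (M N : ℕ) (i : Fin 5) : Fin (M + 2) × VH N := (if fib i then 0 else 1, Sum.inl i)

theorem pt_inj (M N : ℕ) : Function.Injective (pt M N) := by
  intro i j h
  exact Sum.inl.inj (congrArg Prod.snd h)

theorem pt_gp : ∀ i j k : Fin 5, i ≠ j → j ≠ k → i ≠ k →
    (if fib i = fib k then 0 else 1) + D9 (lo i) (lo k) ≠
      ((if fib i = fib j then 0 else 1) + D9 (lo i) (lo j)) +
        ((if fib j = fib k then 0 else 1) + D9 (lo j) (lo k)) := by
  decide

theorem pt_block : ∀ c : Fin 9, ∃ i j : Fin 5, i ≠ j ∧ fib i = fib j ∧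
    D9 (lo j) c = D9 (lo j) (lo i) + D9 (lo i) c := by
  decide

theorem DP_pt (M N : ℕ) (i j : Fin 5) : DP (pt M N i) (pt M N j) =
    (if fib i = fib j then 0 else 1) + D9 (lo i) (lo j) := by
  unfold DP pt
  rw [DH_lo_lo]
  congr 1
  have h01 : (0 : Fin (M + 2)) ≠ 1 := by
    intro h
    have := congrArg Fin.val h
    simp at this
  cases fib i <;> cases fib j <;> simp [h01, h01.symm]

theorem DH_inl_eq {N : ℕ} (i : Fin 5) (w : VH N) : DH (Sum.inl i : VH N) w = D9 (lo i) (cls w) := by
  rcases w with j | p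
  · exact DH_lo_lo i j
  · exact DH_lo_hi i p

theorem lgp_prod_le (M N : ℕ) : lgp ((⊤ : SimpleGraph (Fin (M + 2))) □ HN N) ≤ 5 := by
  obtain ⟨hconn, hdist⟩ := prod_dist (M + 2) N
  apply Nat.sInf_le
  refine ⟨Set.range (pt M N), ⟨?_, ?_⟩, ?_⟩
  · rw [isGP_iff hconn hdist]
    rintro x ⟨i, rfl⟩ y ⟨j, rfl⟩ z ⟨k, rfl⟩ hij hjk hik hcol
    have hij' : i ≠ j := fun h => hij (by rw [h])
    have hjk' : j ≠ k := fun h => hjk (by rw [h])
    have hik' : i ≠ k := fun h => hik (by rw [h])
    unfold Col at hcol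
    rw [DP_pt, DP_pt, DP_pt, DP_pt, DP_pt] at hcol
    rcases hcol with h | h | h
    · exact pt_gp i j k hij' hjk' hik' h
    · exact pt_gp i k j hik' hjk'.symm hij' h
    · exact pt_gp j i k hij'.symm hik' hjk' h
  · intro T hT hsub
    apply Set.Subset.antisymm _ hsub
    rintro ⟨g, w⟩ hx
    by_contra hnot
    rw [isGP_iff hconn hdist] at hT
    obtain ⟨i, j, hij, hf, hb⟩ := pt_block (cls w)
    have hi : pt M N i ∈ T := hsub ⟨i, rfl⟩
    have hj : pt M N j ∈ T := hsub ⟨j, rfl⟩
    have n1 : pt M N j ≠ pt M N i := fun h => hij (pt_inj M N h).symm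
    have n2 : pt M N i ≠ (g, w) := fun h => hnot ⟨i, h⟩
    have n3 : pt M N j ≠ (g, w) := fun h => hnot ⟨j, h⟩
    apply hT _ hj _ hi _ hx n1 n2 n3
    left
    have key : ∀ k : Fin 5, DP (pt M N k) (g, w) =
        (if (if fib k = true then (0 : Fin (M + 2)) else 1) = g then 0 else 1) +
          D9 (lo k) (cls w) := by
      intro k
      rw [← DH_inl_eq]
      rfl
    rw [DP_pt, key, key, hf, if_pos rfl]
    omega
  · rw [Set.ncard_range_of_injective (pt_inj M N), Nat.card_fin]

/-- For every `N` there are finite connected graphs with lower general position number at least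
`N` whose Cartesian product has lower general position number at most `5`.  In particular the
inequality of the problem fails. -/
theorem result :
    (∀ N : ℕ, ∃ (V W : Type) (_ : Finite V) (_ : Finite W) (G : SimpleGraph V)
      (H : SimpleGraph W), G.Connected ∧ H.Connected ∧ N ≤ lgp G ∧ N ≤ lgp H ∧
        lgp (G □ H) ≤ 5) ∧
    ¬ (∀ (V W : Type) (_ : Finite V) (_ : Finite W) (G : SimpleGraph V) (H : SimpleGraph W),
      G.Connected → H.Connected → min (lgp G) (lgp H) ≤ lgp (G □ H)) := by
  have main : ∀ N : ℕ, ∃ (V W : Type) (_ : Finite V) (_ : Finite W) (G : SimpleGraph V)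
      (H : SimpleGraph W), G.Connected ∧ H.Connected ∧ N ≤ lgp G ∧ N ≤ lgp H ∧
        lgp (G □ H) ≤ 5 := by
    intro N
    refine ⟨Fin (N + 2), VH N, inferInstance, inferInstance, ⊤, HN N, ?_, (HN_dist N).1, ?_,
      le_lgp_HN N, lgp_prod_le N N⟩
    · have : Nonempty (Fin (N + 2)) := ⟨0⟩
      exact connected_top
    · have := le_lgp_top (N + 2)
      omega
  refine ⟨main, ?_⟩
  intro h
  obtain ⟨V, W, hV, hW, G, H, hG, hH, h1, h2, h3⟩ := main 6
  have := h V W hV hW G H hG hH
  have h4 : 6 ≤ min (lgp G) (lgp H) := le_min h1 h2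
  omega

end Pool.Agent.Results.MP_f79b2b_co.LowerGPProduct
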